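import Mathlib

/-!
# MP_47dd75_co: a convex 11-gon whose second most frequent distance occurs 12 times

The known range for the least `n` with `r₂(n) > n` was `9 ≤ n ≤ 25`.  Here is a convex 11-gon in which each of
two distances (`1` and `2x = 1/(2 cos 6°)`) is realised by 12 vertex pairs, so the least `n` is at most `11`.
The vertices are `(±a, 0)`, `(0, -h)`, `(±x, ±y)`, `(±p, ±1/2)` with `p = sin 24°`, `a = √3/2 - sin 24°`,
`x = a - sin 12°`, `y = cos 12°`, `h = 1/2 + cos 24°`.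
-/

set_option autoImplicit false

namespace Pool.Agent.Results.MP_47dd75_co.Eleven

/-- The Euclidean plane. -/
abbrev Plane := EuclideanSpace ℝ (Fin 2)

/-- `S` is in strictly convex position: no point of `S` lies in the convex hull of the other points. -/
def ConvexPos (S : Finset Plane) : Prop :=
  ∀ p ∈ S, p ∉ convexHull ℝ ((S : Set Plane) \ {p})

open Classical in
/-- The multiplicity of the distance `d` in `S`: the number of unordered pairs of distinct points of `S` at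
distance `d`. -/
noncomputable def mult (S : Finset Plane) (d : ℝ) : ℕ :=
  (S.offDiag.filter (fun pq => dist pq.1 pq.2 = d)).card / 2

/-- `r₂(n)`: the largest `k` such that some set of `n` points in strictly convex position has two different
distances each of which is realised by at least `k` unordered pairs, i.e. the largest multiplicity of a second
most frequent distance. -/
noncomputable def r₂ (n : ℕ) : ℕ :=
  sSup {k : ℕ | ∃ S : Finset Plane, S.card = n ∧ ConvexPos S ∧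
    ∃ d₁ d₂ : ℝ, d₁ ≠ d₂ ∧ k ≤ mult S d₁ ∧ k ≤ mult S d₂}

/-! ### The numbers -/

noncomputable def u : ℝ := Real.sqrt 3
noncomputable def w : ℝ := Real.sqrt 5
noncomputable def t : ℝ := Real.sqrt ((5 - w) / 8)

lemma hu : u ^ 2 = 3 := Real.sq_sqrt (by norm_num)
lemma hw : w ^ 2 = 5 := Real.sq_sqrt (by norm_num)
lemma w_pos : 0 < w := Real.sqrt_pos.mpr (by norm_num)
lemma u_pos : 0 < u := Real.sqrt_pos.mpr (by norm_num)
lemma w_lo : 2.2360 < w := by
  unfold w; exact Real.lt_sqrt_of_sq_lt (by norm_num)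
lemma w_hi : w < 2.2361 := by
  unfold w; rw [Real.sqrt_lt' (by norm_num)]; norm_num
lemma u_lo : 1.7320 < u := by
  unfold u; exact Real.lt_sqrt_of_sq_lt (by norm_num)
lemma u_hi : u < 1.7321 := by
  unfold u; rw [Real.sqrt_lt' (by norm_num)]; norm_num
lemma ht : t ^ 2 = (5 - w) / 8 := Real.sq_sqrt (by have := w_hi; linarith)
lemma t_lo : 0.5877 < t := by
  unfold t; apply Real.lt_sqrt_of_sq_lt; have := w_hi; norm_num; linarith
lemma t_hi : t < 0.5879 := by
  unfold t; rw [Real.sqrt_lt' (by norm_num)]; have := w_lo; norm_num; linarith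

noncomputable def a : ℝ := t / 2 + 3 * u / 8 - u * w / 8
noncomputable def x : ℝ := t / 4 - w * t / 4 + u / 4
noncomputable def y : ℝ := -1 / 8 + w / 8 + u * t / 4 + u * w * t / 4
noncomputable def p : ℝ := -t / 2 + u / 8 + u * w / 8
noncomputable def h : ℝ := 5 / 8 + w / 8 + u * t / 2

lemma e1 : (a - x) ^ 2 + y ^ 2 = 1 := by
  unfold a x y
  linear_combination ((7/128)+(5/128)*w+(5/128)*w^2+(-1/128)*w^3) * hu + ((5/32)+(-1/32)*w) * hw
    + ((1/16)+(1/8)*w+(1/16)*w^2+(1/16)*u^2+(1/8)*u^2*w+(1/16)*u^2*w^2) * ht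
lemma e2 : (a + p) ^ 2 + 1 / 4 = 1 := by
  unfold a p
  linear_combination (1/4) * hu
lemma e3 : p ^ 2 + (h - 1 / 2) ^ 2 = 1 := by
  unfold p h
  linear_combination ((11/64)+(1/64)*w^2) * hu + (1/16) * hw + ((1/4)+(1/4)*u^2) * ht
lemma e5 : (a - p) ^ 2 + 1 / 4 = (2 * x) ^ 2 := by
  unfold a p x
  linear_combination ((-3/16)+(-1/8)*w+(1/16)*w^2) * hu + ((-1/32)+(1/32)*w) * hw
    + ((3/4)+(1/2)*w+(-1/4)*w^2) * ht
lemma e6 : x ^ 2 + (h - y) ^ 2 = (2 * x) ^ 2 := by
  unfold x h y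
  linear_combination ((-19/128)+(-11/128)*w+(7/128)*w^2+(-1/128)*w^3) * hu
    + ((-3/16)+(3/8)*w+(-3/16)*w^2+(1/16)*u^2+(-1/8)*u^2*w+(1/16)*u^2*w^2) * ht
lemma e8 : (x - p) ^ 2 + (y - 1 / 2) ^ 2 = (2 * x) ^ 2 := by
  unfold x p y
  linear_combination ((-25/128)+(5/128)*w+(5/128)*w^2+(-1/128)*w^3) * hu + ((1/8)*u*t) * hw
    + ((5/16)+(1/8)*w+(-3/16)*w^2+(1/16)*u^2+(1/8)*u^2*w+(1/16)*u^2*w^2) * ht

/-! ### Numerical bounds -/

lemma uw_lo : 3.8727 < u * w := by nlinarith [u_lo, w_lo]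
lemma uw_hi : u * w < 3.8732 := by nlinarith [u_lo, w_lo, u_hi, w_hi]
lemma ut_lo : 1.0178 < u * t := by nlinarith [u_lo, t_lo]
lemma ut_hi : u * t < 1.0184 := by nlinarith [u_lo, t_lo, u_hi, t_hi]
lemma wt_lo : 1.3140 < w * t := by nlinarith [w_lo, t_lo]
lemma wt_hi : w * t < 1.3147 := by nlinarith [w_lo, t_lo, w_hi, t_hi]
lemma uwt_lo : 2.2759 < u * w * t := by nlinarith [uw_lo, t_lo]
lemma uwt_hi : u * w * t < 2.2771 := by nlinarith [uw_lo, t_lo, uw_hi, t_hi]

lemma a_lo : 0.459 < a := by unfold a; linarith [t_lo, u_lo, uw_hi]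
lemma a_hi : a < 0.4596 := by unfold a; linarith [t_hi, u_hi, uw_lo]
lemma x_lo : 0.251 < x := by unfold x; linarith [t_lo, u_lo, wt_hi]
lemma x_hi : x < 0.2517 := by unfold x; linarith [t_hi, u_hi, wt_lo]
lemma y_lo : 0.977 < y := by unfold y; linarith [w_lo, ut_lo, uwt_lo]
lemma y_hi : y < 0.979 := by unfold y; linarith [w_hi, ut_hi, uwt_hi]
lemma p_lo : 0.406 < p := by unfold p; linarith [t_hi, u_lo, uw_lo]
lemma p_hi : p < 0.407 := by unfold p; linarith [t_lo, u_hi, uw_hi]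
lemma h_lo : 1.413 < h := by unfold h; linarith [w_lo, ut_lo]
lemma h_hi : h < 1.414 := by unfold h; linarith [w_hi, ut_hi]

/-! ### The eleven points -/

/-- first coordinates -/
noncomputable def X : Fin 11 → ℝ
  | 0 => a | 1 => -a | 2 => 0 | 3 => x | 4 => x | 5 => -x | 6 => -x | 7 => p | 8 => p | 9 => -p | 10 => -p
/-- second coordinates -/
noncomputable def Y : Fin 11 → ℝ
  | 0 => 0 | 1 => 0 | 2 => -h | 3 => y | 4 => -y | 5 => -y | 6 => y | 7 => 1 / 2 | 8 => -(1 / 2)
  | 9 => -(1 / 2) | 10 => 1 / 2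
/-- first coordinates of the outer normals -/
noncomputable def A : Fin 11 → ℝ
  | 0 => 1 | 1 => -1 | 2 => 0 | 3 => 1 | 4 => 12 / 5 | 5 => -(12 / 5) | 6 => -1 | 7 => 5 | 8 => 5 | 9 => -5
  | 10 => -5
/-- second coordinates of the outer normals -/
noncomputable def B : Fin 11 → ℝ
  | 0 => 0 | 1 => 0 | 2 => -1 | 3 => 1 | 4 => -1 | 5 => -1 | 6 => 1 | 7 => 1 | 8 => -1 | 9 => -1 | 10 => 1
/-- separating levels -/
noncomputable def M : Fin 11 → ℝ
  | 0 => 0.44 | 1 => 0.44 | 2 => 1.2 | 3 => 1.1 | 4 => 1.5 | 5 => 1.5 | 6 => 1.1 | 7 => 2.4 | 8 => 2.4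
  | 9 => 2.4 | 10 => 2.4

lemma sep_ne (i j : Fin 11) (hij : i ≠ j) : A i * X j + B i * Y j < M i := by
  have h1 := a_lo; have h2 := a_hi; have h3 := x_lo; have h4 := x_hi; have h5 := y_lo; have h6 := y_hi
  have h7 := p_lo; have h8 := p_hi; have h9 := h_lo; have h10 := h_hi
  fin_cases i <;> fin_cases j <;> first
    | exact absurd rfl hij
    | (dsimp only [A, B, M, X, Y]; linarith)

lemma sep_self (i : Fin 11) : M i < A i * X i + B i * Y i := by
  have h1 := a_lo; have h2 := a_hi; have h3 := x_lo; have h4 := x_hi; have h5 := y_lo; have h6 := y_hi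
  have h7 := p_lo; have h8 := p_hi; have h9 := h_lo; have h10 := h_hi
  fin_cases i <;> (dsimp only [A, B, M, X, Y]; linarith)

/-- the points -/
noncomputable def pts (i : Fin 11) : Plane := !₂[X i, Y i]

lemma pts_zero (i : Fin 11) : pts i 0 = X i := by simp [pts]
lemma pts_one (i : Fin 11) : pts i 1 = Y i := by simp [pts]

lemma pts_inj : Function.Injective pts := by
  intro i j hij
  by_contra hne
  have hx : X i = X j := by rw [← pts_zero, ← pts_zero, hij]
  have hy : Y i = Y j := by rw [← pts_one, ← pts_one, hij]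
  have h1 := sep_ne i j hne
  have h2 := sep_self i
  rw [hx, hy] at h2
  exact lt_asymm h1 h2

/-- the 11-gon -/
noncomputable def S : Finset Plane := Finset.univ.map ⟨pts, pts_inj⟩

lemma mem_S {q : Plane} : q ∈ S ↔ ∃ i, pts i = q := by simp [S]

lemma card_S : S.card = 11 := by simp [S]

lemma convexPos_S : ConvexPos S := by
  intro q hq hmem
  obtain ⟨i, rfl⟩ := mem_S.mp hq
  have hconv : Convex ℝ {z : Plane | A i * z 0 + B i * z 1 ≤ M i} := by
    intro z hz z' hz' α β hα hβ hαβ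
    simp only [Set.mem_ofPred_eq, PiLp.add_apply, PiLp.smul_apply, smul_eq_mul] at *
    calc A i * (α * z 0 + β * z' 0) + B i * (α * z 1 + β * z' 1)
        = α * (A i * z 0 + B i * z 1) + β * (A i * z' 0 + B i * z' 1) := by ring
      _ ≤ α * M i + β * M i := add_le_add (mul_le_mul_of_nonneg_left hz hα) (mul_le_mul_of_nonneg_left hz' hβ)
      _ = M i := by rw [← add_mul, hαβ, one_mul]
  have hsub : ((S : Set Plane) \ {pts i}) ⊆ {z : Plane | A i * z 0 + B i * z 1 ≤ M i} := by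
    rintro z ⟨hz, hne⟩
    obtain ⟨j, rfl⟩ := mem_S.mp (by exact_mod_cast hz)
    have hij : i ≠ j := by rintro rfl; exact hne rfl
    have := sep_ne i j hij
    simp only [Set.mem_ofPred_eq, pts_zero, pts_one]
    exact this.le
  have := convexHull_min hsub hconv hmem
  simp only [Set.mem_ofPred_eq, pts_zero, pts_one] at this
  exact absurd this (not_le.mpr (sep_self i))

lemma dist_pts (i j : Fin 11) : dist (pts i) (pts j) = Real.sqrt ((X i - X j) ^ 2 + (Y i - Y j) ^ 2) := by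
  rw [EuclideanSpace.dist_eq]
  simp [Fin.sum_univ_two, pts_zero, pts_one, Real.dist_eq, sq_abs]

/-- ordered pairs at distance `1` -/
def L1 : Finset (Fin 11 × Fin 11) :=
  {(0,3),(0,4),(0,9),(0,10),(1,5),(1,6),(1,7),(1,8),(2,8),(2,9),(7,8),(9,10),
    (3,0),(4,0),(9,0),(10,0),(5,1),(6,1),(7,1),(8,1),(8,2),(9,2),(8,7),(10,9)}
/-- ordered pairs at distance `2x` -/
def L2 : Finset (Fin 11 × Fin 11) :=
  {(0,7),(0,8),(1,9),(1,10),(2,4),(2,5),(3,6),(3,7),(4,5),(4,8),(5,9),(6,10),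
    (7,0),(8,0),(9,1),(10,1),(4,2),(5,2),(6,3),(7,3),(5,4),(8,4),(9,5),(10,6)}

lemma card_L1 : L1.card = 24 := by decide +kernel
lemma card_L2 : L2.card = 24 := by decide +kernel
lemma ne_L1 : ∀ e ∈ L1, e.1 ≠ e.2 := by decide +kernel
lemma ne_L2 : ∀ e ∈ L2, e.1 ≠ e.2 := by decide +kernel

lemma sq1 : ∀ e ∈ L1, (X e.1 - X e.2) ^ 2 + (Y e.1 - Y e.2) ^ 2 = 1 := by
  intro e he
  have g1 := e1; have g2 := e2; have g3 := e3
  unfold L1 at he
  fin_cases he <;> (dsimp only [X, Y]; first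
    | linear_combination g1
    | linear_combination g2
    | linear_combination g3
    | norm_num)

lemma sq2 : ∀ e ∈ L2, (X e.1 - X e.2) ^ 2 + (Y e.1 - Y e.2) ^ 2 = (2 * x) ^ 2 := by
  intro e he
  have g5 := e5; have g6 := e6; have g8 := e8
  unfold L2 at he
  fin_cases he <;> (dsimp only [X, Y]; first
    | linear_combination g5
    | linear_combination g6
    | linear_combination g8
    | ring)

/-- the map from index pairs to pairs of points -/
noncomputable def pp (e : Fin 11 × Fin 11) : Plane × Plane := (pts e.1, pts e.2)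

lemma pp_inj : Function.Injective pp := by
  intro e e' hee
  have h1 : pts e.1 = pts e'.1 := congrArg Prod.fst hee
  have h2 : pts e.2 = pts e'.2 := congrArg Prod.snd hee
  exact Prod.ext (pts_inj h1) (pts_inj h2)

open Classical in
lemma count_aux (L : Finset (Fin 11 × Fin 11)) (hL : L.card = 24)
    (hne : ∀ e ∈ L, e.1 ≠ e.2) (d : ℝ) (hd : ∀ e ∈ L, dist (pts e.1) (pts e.2) = d) :
    12 ≤ mult S d := by
  have hsub : L.map ⟨pp, pp_inj⟩ ⊆ S.offDiag.filter (fun pq => dist pq.1 pq.2 = d) := by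
    intro z hz
    obtain ⟨e, he, hez⟩ := Finset.mem_map.mp hz
    have hz1 : z.1 = pts e.1 := by rw [← hez]; rfl
    have hz2 : z.2 = pts e.2 := by rw [← hez]; rfl
    refine Finset.mem_filter.mpr ⟨Finset.mem_offDiag.mpr ⟨?_, ?_, ?_⟩, ?_⟩
    · rw [hz1]; exact mem_S.mpr ⟨e.1, rfl⟩
    · rw [hz2]; exact mem_S.mpr ⟨e.2, rfl⟩
    · rw [hz1, hz2]; exact fun hh => hne e he (pts_inj hh)
    · rw [hz1, hz2]; exact hd e he
  have hcard := Finset.card_le_card hsub
  rw [Finset.card_map, hL] at hcard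
  unfold mult
  exact (Nat.le_div_iff_mul_le (by norm_num)).mpr (by simpa using hcard)

lemma mult_one : 12 ≤ mult S 1 := by
  apply count_aux L1 card_L1 ne_L1
  intro e he
  rw [dist_pts, sq1 e he, Real.sqrt_one]

lemma mult_two : 12 ≤ mult S (2 * x) := by
  apply count_aux L2 card_L2 ne_L2
  intro e he
  rw [dist_pts, sq2 e he, Real.sqrt_sq (by linarith [x_lo])]

lemma ne_dist : (1 : ℝ) ≠ 2 * x := by
  have := x_hi
  intro hh; linarith

open Classical in
lemma mult_le (T : Finset Plane) (d : ℝ) : mult T d ≤ T.card * T.card := by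
  unfold mult
  calc (T.offDiag.filter (fun pq => dist pq.1 pq.2 = d)).card / 2
      ≤ (T.offDiag.filter (fun pq => dist pq.1 pq.2 = d)).card := Nat.div_le_self _ _
    _ ≤ T.offDiag.card := Finset.card_filter_le _ _
    _ = T.card * T.card - T.card := Finset.offDiag_card _
    _ ≤ T.card * T.card := Nat.sub_le _ _

lemma le_r₂ {n k : ℕ} (T : Finset Plane) (hT : T.card = n) (hc : ConvexPos T) (d₁ d₂ : ℝ) (hd : d₁ ≠ d₂)
    (h₁ : k ≤ mult T d₁) (h₂ : k ≤ mult T d₂) : k ≤ r₂ n := by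
  apply le_csSup
  · refine ⟨n * n, ?_⟩
    rintro m ⟨T', hT', -, d, d', -, hm, -⟩
    exact hm.trans (hT' ▸ mult_le T' d)
  · exact ⟨T, hT, hc, d₁, d₂, hd, h₁, h₂⟩

/-- **MP_47dd75_co, Q1.**  There is a convex 11-gon in which two different distances are realised by (at least) 12
vertex pairs each; hence `r₂(11) > 11`, and the smallest `n` with `r₂(n) > n` is at most `11`. -/
theorem result :
    (∃ S : Finset Plane, S.card = 11 ∧ ConvexPos S ∧
      ∃ d₁ d₂ : ℝ, d₁ ≠ d₂ ∧ 12 ≤ mult S d₁ ∧ 12 ≤ mult S d₂) ∧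
    11 < r₂ 11 ∧ sInf {n : ℕ | n < r₂ n} ≤ 11 := by
  have h1 : 11 < r₂ 11 :=
    Nat.lt_of_lt_of_le (by norm_num) (le_r₂ S card_S convexPos_S 1 (2 * x) ne_dist mult_one mult_two)
  exact ⟨⟨S, card_S, convexPos_S, 1, 2 * x, ne_dist, mult_one, mult_two⟩, h1, Nat.sInf_le h1⟩

end Pool.Agent.Results.MP_47dd75_co.Eleven
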